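import Pool.Graph.R_pool_sql_team_seeded_35f281b4.K7.H65.G4.Conic

set_option autoImplicit false
set_option linter.unusedSectionVars false

/-!
# The affine conic `v² = 90 w² + 30`

If `10` is not a square in `F`, then the fourth power of every ideal of the affine ring is principal.
-/

namespace Pool.Agent.H81.G5

open Polynomial Pool.Agent.TH943.HJ Pool.Agent.K7.H65
open Pool.Agent.K7.H65.G4 (NS ns_of_lead dedekind isDomain pid_away)

variable {F : Type} [Field F] [CharZero F]

variable (F) in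
/-- `90 x² + 30` -/
noncomputable def qc : F[X] := C 90 * X ^ 2 + C 30

variable (F) in
/-- `90 x² + 30 x` -/
noncomputable def qd : F[X] := C 90 * X ^ 2 + C 30 * X

theorem not_sq90 (h2 : ¬ IsSquare (10 : F)) : ¬ IsSquare (90 : F) := by
  rintro ⟨r, hr⟩
  apply h2
  refine ⟨r / 3, ?_⟩
  field_simp
  linear_combination hr

theorem lead_qc : (qc F).leadingCoeff = 90 := by
  have h : (qc F).natDegree = 2 := by unfold qc; compute_degree!
  rw [leadingCoeff, h]
  unfold qc
  simp

theorem lead_qd : (qd F).leadingCoeff = 90 := by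
  have h : (qd F).natDegree = 2 := by unfold qd; compute_degree!
  rw [leadingCoeff, h]
  unfold qd
  simp

theorem ns_qc (h2 : ¬ IsSquare (10 : F)) : NS (qc F) :=
  ns_of_lead (by rw [lead_qc]; exact not_sq90 h2)

theorem ns_qd (h2 : ¬ IsSquare (10 : F)) : NS (qd F) :=
  ns_of_lead (by rw [lead_qd]; exact not_sq90 h2)

theorem ded_qc (h2 : ¬ IsSquare (10 : F)) : IsDedekindDomain (CR (qc F)) := by
  refine dedekind (by norm_num) (ns_qc h2) (Polynomial.Separable.squarefree ?_)
  have hd : derivative (qc F) = C 180 * X := by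
    unfold qc
    simp only [derivative_add, derivative_mul, derivative_X_pow, derivative_C, zero_mul, zero_add,
      add_zero]
    have : ((2 : ℕ) : F) = 2 := by norm_num
    rw [this, ← mul_assoc, ← C_mul]
    norm_num
  refine ⟨C (1 / 30), -(C (1 / 60) * X), ?_⟩
  rw [hd]
  unfold qc
  have e1 : (C (1 / 30) : F[X]) * (C 90 * X ^ 2 + C 30) + -(C (1 / 60) * X) * (C 180 * X) =
      C (1 / 30 * 90 - 1 / 60 * 180) * X ^ 2 + C (1 / 30 * 30) := by
    simp only [C_sub, C_mul]
    ring
  rw [e1]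
  norm_num

theorem ded_qd (h2 : ¬ IsSquare (10 : F)) : IsDedekindDomain (CR (qd F)) := by
  refine dedekind (by norm_num) (ns_qd h2) (Polynomial.Separable.squarefree ?_)
  have hd : derivative (qd F) = C 180 * X + C 30 := by
    unfold qd
    simp only [derivative_add, derivative_mul, derivative_X_pow, derivative_C, derivative_X, zero_mul,
      zero_add, mul_one]
    have : ((2 : ℕ) : F) = 2 := by norm_num
    rw [this, ← mul_assoc, ← C_mul]
    norm_num
  refine ⟨-(C (2 / 5)), C (1 / 5) * X + C (1 / 30), ?_⟩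
  rw [hd]
  unfold qd
  have e1 : -(C (2 / 5) : F[X]) * (C 90 * X ^ 2 + C 30 * X) +
      (C (1 / 5) * X + C (1 / 30)) * (C 180 * X + C 30) =
      C (-(2 / 5 * 90) + 1 / 5 * 180) * X ^ 2 + C (-(2 / 5 * 30) + 1 / 5 * 30 + 1 / 30 * 180) * X +
        C (1 / 30 * 30) := by
    simp only [C_add, C_neg, C_mul]
    ring
  rw [e1]
  norm_num

/-! ### The conic `b² = 90 a² + 30 a` -/

section dd

/-- the ideal of the point `(0, 0)` -/
noncomputable def Pd (F : Type) [Field F] [CharZero F] : Ideal (CR (qd F)) :=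
  Ideal.span {pp X, yy (qd F)}

theorem evd_eq : (X ^ 2 - C (qd F) : F[X][X]).eval₂ (evalRingHom (0 : F)) 0 = 0 := by
  rw [eval₂_sub, eval₂_pow, eval₂_X, eval₂_C]
  unfold qd
  simp

variable (F) in
/-- The value at `(0, 0)`. -/
noncomputable def evd : CR (qd F) →+* F := AdjoinRoot.lift (evalRingHom (0 : F)) 0 evd_eq

theorem evd_pp (p : F[X]) : evd F (pp p) = p.eval 0 :=
  AdjoinRoot.lift_of (i := evalRingHom (0 : F)) (h := evd_eq) (x := p)

theorem evd_yy : evd F (yy (qd F)) = 0 :=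
  AdjoinRoot.lift_root (i := evalRingHom (0 : F)) evd_eq

theorem Pd_eq : Pd F = RingHom.ker (evd F) := by
  apply le_antisymm
  · unfold Pd
    rw [Ideal.span_le]
    rintro z (rfl | rfl)
    · show evd F (pp X) = 0
      rw [evd_pp, eval_X]
    · exact evd_yy
  · intro z hz
    obtain ⟨p, q, rfl⟩ := exists_el z
    rw [RingHom.mem_ker] at hz
    unfold el at hz ⊢
    rw [map_add, map_mul, evd_pp, evd_pp, evd_yy, mul_zero, add_zero] at hz
    obtain ⟨p', rfl⟩ := (Polynomial.X_dvd_iff (f := p)).2 (by rw [coeff_zero_eq_eval_zero]; exact hz)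
    refine add_mem ?_ ?_
    · rw [map_mul]
      exact Ideal.mul_mem_right _ _ (Ideal.subset_span (by simp))
    · exact Ideal.mul_mem_left _ _ (Ideal.subset_span (by simp))

theorem Pd_prime : (Pd F).IsPrime := by
  rw [Pd_eq]; exact RingHom.ker_isPrime _

theorem yyd_sq : yy (qd F) ^ 2 = algebraMap F (CR (qd F)) 90 * pp X ^ 2 +
    algebraMap F (CR (qd F)) 30 * pp X := by
  have h := yy_sq (qd F)
  have hC : ∀ a : F, (pp (C a) : CR (qd F)) = algebraMap F (CR (qd F)) a := fun a =>
    (IsScalarTower.algebraMap_apply F F[X] (CR (qd F)) a).symm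
  have h1 : (pp (qd F) : CR (qd F)) = pp (C 90) * pp X ^ 2 + pp (C 30) * pp X := by
    have e : qd F = C 90 * X ^ 2 + C 30 * X := rfl
    calc (pp (qd F) : CR (qd F)) = pp (C 90 * X ^ 2 + C 30 * X) := by rw [← e]
      _ = _ := by rw [map_add, map_mul, map_mul, map_pow]
  rw [h, h1, hC, hC]

theorem Pd_sq : Pd F ^ 2 = Ideal.span {pp X} := by
  have hy := yyd_sq (F := F)
  rw [pow_two (Pd F)]
  unfold Pd
  rw [Ideal.span_pair_mul_span_pair]
  apply le_antisymm
  · rw [Ideal.span_le]
    rintro z (rfl | rfl | rfl | rfl)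
    · exact Ideal.mem_span_singleton.2 (Dvd.intro _ rfl)
    · exact Ideal.mem_span_singleton.2 (Dvd.intro _ rfl)
    · exact Ideal.mem_span_singleton.2 (Dvd.intro_left _ rfl)
    · refine Ideal.mem_span_singleton.2 ⟨algebraMap F (CR (qd F)) 90 * pp X +
        algebraMap F (CR (qd F)) 30, ?_⟩
      linear_combination hy
  · rw [Ideal.span_singleton_le_iff_mem]
    have hu : algebraMap F (CR (qd F)) (1 / 30) * algebraMap F (CR (qd F)) 30 = 1 := by
      rw [← map_mul]; norm_num
    have h1 : (pp X : CR (qd F)) = algebraMap F (CR (qd F)) (1 / 30) * (yy (qd F) * yy (qd F)) +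
        (-algebraMap F (CR (qd F)) (1 / 30) * algebraMap F (CR (qd F)) 90) * (pp X * pp X) := by
      linear_combination (-algebraMap F (CR (qd F)) (1 / 30)) * hy + (-pp X) * hu
    have hxx : pp X * pp X ∈ Ideal.span {pp X * pp X, pp X * yy (qd F), yy (qd F) * pp X,
        yy (qd F) * yy (qd F)} := Ideal.subset_span (by simp)
    have hyy : yy (qd F) * yy (qd F) ∈ Ideal.span {pp X * pp X, pp X * yy (qd F),
        yy (qd F) * pp X, yy (qd F) * yy (qd F)} := Ideal.subset_span (by simp)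
    generalize Ideal.span {pp X * pp X, pp X * yy (qd F), yy (qd F) * pp X,
        yy (qd F) * yy (qd F)} = S at hxx hyy ⊢
    rw [h1]
    exact add_mem (Ideal.mul_mem_left _ _ hyy) (Ideal.mul_mem_left _ _ hxx)

/-- the conic without the point `(0, 0)` is an open subset of the line -/
theorem pid_D' : IsPrincipalIdealRing (Localization.Away (pp X : CR (qd F))) := by
  set B := Localization.Away (pp X : CR (qd F)) with hB
  let a : B := algebraMap (CR (qd F)) B (pp X)
  let b : B := algebraMap (CR (qd F)) B (yy (qd F))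
  let ai : B := IsLocalization.Away.invSelf (pp X : CR (qd F))
  have hai : a * ai = 1 := IsLocalization.Away.mul_invSelf (pp X : CR (qd F))
  let κ : F →+* B := algebraMap F B
  have hκ : ∀ c : F, κ c = algebraMap (CR (qd F)) B (algebraMap F (CR (qd F)) c) := fun c =>
    IsScalarTower.algebraMap_apply F (CR (qd F)) B c
  have hb : b ^ 2 = κ 90 * a ^ 2 + κ 30 * a := by
    rw [hκ, hκ]
    show algebraMap (CR (qd F)) B (yy (qd F)) ^ 2 = _
    rw [← map_pow, yyd_sq, map_add, map_mul, map_mul, map_pow]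
  let φ : F[X] →+* B := eval₂RingHom κ (b * ai)
  have hφX : φ X = b * ai := by simp [φ]
  have hφC : ∀ c, φ (C c) = κ c := fun c => by simp [φ]
  have h1 : φ (X ^ 2 - C 90) * a = κ 30 := by
    rw [map_sub, map_pow, hφX, hφC]
    linear_combination (ai ^ 2 * a) * hb + (κ 90 * a * (a * ai + 1) + κ 30 * (a * ai + 1)) * hai
  have h6 : κ (1 / 30) * κ 30 = 1 := by rw [← map_mul]; norm_num
  have hu : IsUnit (φ (X ^ 2 - C 90)) := by
    refine IsUnit.of_mul_eq_one (a * κ (1 / 30)) ?_
    linear_combination κ (1 / 30) * h1 + h6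
  let ψ : Localization.Away (X ^ 2 - C 90 : F[X]) →+* B :=
    IsLocalization.Away.lift (X ^ 2 - C 90 : F[X]) hu
  have hψ : ∀ p, ψ (algebraMap F[X] _ p) = φ p := fun p => IsLocalization.Away.lift_eq _ _ _
  have hψ2 : ∀ p, φ p ∈ ψ.range := fun p => ⟨_, hψ p⟩
  have hκr : ∀ c, κ c ∈ ψ.range := fun c => by rw [← hφC]; exact hψ2 _
  have hair : ai ∈ ψ.range := by
    have : ai = κ (1 / 30) * φ (X ^ 2 - C 90) := by
      linear_combination (-ai) * h6 + (κ (1 / 30) * ai) * (-h1) + κ (1 / 30) * φ (X ^ 2 - C 90) * hai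
    rw [this]
    exact mul_mem (hκr _) (hψ2 _)
  have har : a ∈ ψ.range := by
    have hinv : ψ (IsLocalization.Away.invSelf (X ^ 2 - C 90 : F[X])) * φ (X ^ 2 - C 90) = 1 := by
      rw [← hψ, ← map_mul, mul_comm, IsLocalization.Away.mul_invSelf, map_one]
    have : a = κ 30 * ψ (IsLocalization.Away.invSelf (X ^ 2 - C 90 : F[X])) := by
      linear_combination (-a) * hinv + ψ (IsLocalization.Away.invSelf (X ^ 2 - C 90 : F[X])) * h1
    rw [this]
    exact mul_mem (hκr _) ⟨_, rfl⟩
  have hbr : b ∈ ψ.range := by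
    have : b = φ X * a := by
      rw [hφX]
      linear_combination (-b) * hai
    rw [this]
    exact mul_mem (hψ2 _) har
  have hppr : ∀ p : F[X], algebraMap (CR (qd F)) B (pp p) ∈ ψ.range := by
    intro p
    induction p using Polynomial.induction_on with
    | C c =>
      have : algebraMap (CR (qd F)) B (pp (C c)) = κ c := by
        rw [hκ]
        congr 1
      rw [this]; exact hκr c
    | add p q hp hq => rw [map_add, map_add]; exact add_mem hp hq
    | monomial n c ih =>
      have : (pp (C c * X ^ (n + 1)) : CR (qd F)) = pp (C c * X ^ n) * pp X := by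
        rw [← map_mul]; congr 1; ring
      rw [this, map_mul]
      exact mul_mem ih har
  have hsurj : Function.Surjective ψ := by
    intro z
    show z ∈ ψ.range
    obtain ⟨⟨w, s⟩, rfl⟩ := IsLocalization.mk'_surjective (Submonoid.powers (pp X : CR (qd F))) z
    obtain ⟨n, hn⟩ := s.2
    have hz : IsLocalization.mk' B w s = ai ^ n * algebraMap (CR (qd F)) B w := by
      rw [IsLocalization.mk'_eq_iff_eq_mul]
      have hn' : algebraMap (CR (qd F)) B s = a ^ n := by
        rw [← hn, map_pow]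
      rw [hn', mul_right_comm, ← mul_pow, mul_comm ai, hai, one_pow, one_mul]
    simp only
    rw [hz]
    obtain ⟨p, q, rfl⟩ := exists_el w
    unfold el
    rw [map_add, map_mul]
    exact mul_mem (pow_mem hair n) (add_mem (hppr p) (mul_mem (hppr q) hbr))
  have := pid_away (X ^ 2 - C 90 : F[X])
  exact IsPrincipalIdealRing.of_surjective ψ hsurj

theorem exp_D (h2 : ¬ IsSquare (10 : F)) (J : Ideal (CR (qd F))) : ∃ a, J ^ 2 = Ideal.span {a} := by
  have := ded_qd h2
  have hx0 : (pp X : CR (qd F)) ≠ 0 := by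
    intro h
    exact X_ne_zero (pp_inj (by rw [h, map_zero]))
  have hM : Submonoid.powers (pp X : CR (qd F)) ≤ nonZeroDivisors _ :=
    powers_le_nonZeroDivisors_of_noZeroDivisors hx0
  have : IsDomain (Localization.Away (pp X : CR (qd F))) := IsLocalization.isDomain_localization hM
  have hp := pid_D' (F := F)
  obtain ⟨b, hb⟩ := (IsPrincipalIdealRing.principal
    (J.map (algebraMap (CR (qd F)) (Localization.Away (pp X : CR (qd F)))))).principal
  exact G2.descend (pp X : CR (qd F)) hx0 (Pd F) Pd_prime Pd_sq (b := b) hb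

end dd

/-! ### The conic `v² = 90 w² + 30` -/

section cc

theorem yyc_sq : yy (qc F) ^ 2 = algebraMap F (CR (qc F)) 90 * pp X ^ 2 +
    algebraMap F (CR (qc F)) 30 := by
  have h := yy_sq (qc F)
  have hC : ∀ a : F, (pp (C a) : CR (qc F)) = algebraMap F (CR (qc F)) a := fun a =>
    (IsScalarTower.algebraMap_apply F F[X] (CR (qc F)) a).symm
  have h1 : (pp (qc F) : CR (qc F)) = pp (C 90) * pp X ^ 2 + pp (C 30) := by
    have e : qc F = C 90 * X ^ 2 + C 30 := rfl
    calc (pp (qc F) : CR (qc F)) = pp (C 90 * X ^ 2 + C 30) := by rw [← e]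
      _ = _ := by rw [map_add, map_mul, map_pow]
  rw [h, h1, hC, hC]

theorem eval_s : (X ^ 2 - C (qc F) : F[X][X]).eval₂
    ((pp : F[X] →+* CR (qc F)).comp (compRingHom (-X))) (yy (qc F)) = 0 := by
  rw [eval₂_sub, eval₂_pow, eval₂_X, eval₂_C, yy_sq]
  have : (qc F).comp (-X) = qc F := by
    unfold qc
    simp
  rw [RingHom.comp_apply, coe_compRingHom_apply, this, sub_self]

variable (F) in
/-- `(w, v) ↦ (-w, v)` -/
noncomputable def sw : CR (qc F) →+* CR (qc F) :=
  AdjoinRoot.lift ((pp : F[X] →+* CR (qc F)).comp (compRingHom (-X))) (yy (qc F)) eval_s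

theorem sw_pp (p : F[X]) : sw F (pp p) = pp (p.comp (-X)) :=
  AdjoinRoot.lift_of (i := (pp : F[X] →+* CR (qc F)).comp (compRingHom (-X))) (h := eval_s) (x := p)

theorem sw_yy : sw F (yy (qc F)) = yy (qc F) :=
  AdjoinRoot.lift_root (i := (pp : F[X] →+* CR (qc F)).comp (compRingHom (-X))) eval_s

theorem sw_sw (z : CR (qc F)) : sw F (sw F z) = z := by
  obtain ⟨p, q, rfl⟩ := exists_el z
  unfold el
  rw [map_add, map_mul, sw_pp, sw_pp, sw_yy, map_add, map_mul, sw_pp, sw_pp, sw_yy, comp_assoc,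
    comp_assoc]
  simp

theorem cj_sw (z : CR (qc F)) : cj (qc F) (sw F z) = sw F (cj (qc F) z) := by
  obtain ⟨p, q, rfl⟩ := exists_el z
  rw [cj_el]
  unfold el
  rw [map_add, map_mul, sw_pp, sw_pp, sw_yy, map_add, map_mul, cj_pp, cj_pp, cj_yy, map_add, map_mul,
    sw_pp, sw_pp, sw_yy]
  simp

/-- Every function is `α + β w + γ v + δ v w` with `α, β, γ, δ` in a subring that contains `F`
and `w²`. -/
theorem decomp (S : Subring (CR (qc F))) (hF : ∀ a : F, algebraMap F (CR (qc F)) a ∈ S)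
    (hw : pp X ^ 2 ∈ S) (z : CR (qc F)) : ∃ α ∈ S, ∃ β ∈ S, ∃ γ ∈ S, ∃ δ ∈ S,
      z = α + β * pp X + (γ + δ * pp X) * yy (qc F) := by
  have hp : ∀ p : F[X], ∃ α ∈ S, ∃ β ∈ S, (pp p : CR (qc F)) = α + β * pp X := by
    intro p
    induction p using Polynomial.induction_on with
    | C c => exact ⟨_, hF c, 0, zero_mem _, by rw [zero_mul, add_zero]; rfl⟩
    | add p q hp hq =>
      obtain ⟨a, ha, b, hb, h1⟩ := hp
      obtain ⟨c, hc, d, hd, h2⟩ := hq
      exact ⟨_, add_mem ha hc, _, add_mem hb hd, by rw [map_add, h1, h2]; ring⟩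
    | monomial n c ih =>
      obtain ⟨a, ha, b, hb, h1⟩ := ih
      refine ⟨_, mul_mem hb hw, a, ha, ?_⟩
      have : (pp (C c * X ^ (n + 1)) : CR (qc F)) = pp (C c * X ^ n) * pp X := by
        rw [← map_mul]; congr 1; ring
      rw [this, h1]
      ring
  obtain ⟨p, q, rfl⟩ := exists_el z
  obtain ⟨a, ha, b, hb, h1⟩ := hp p
  obtain ⟨c, hc, d, hd, h2⟩ := hp q
  exact ⟨a, ha, b, hb, c, hc, d, hd, by unfold el; rw [h1, h2]⟩

variable (F) in
/-- `F[v]` -/
noncomputable def phv : F[X] →+* CR (qc F) := eval₂RingHom (algebraMap F _) (yy (qc F))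

theorem alg_mem_range {S : Type} [CommRing S] {φ : S →+* CR (qc F)} {κ : F → S}
    (h : ∀ a, φ (κ a) = algebraMap F (CR (qc F)) a) (a : F) :
    algebraMap F (CR (qc F)) a ∈ φ.range := ⟨κ a, h a⟩

theorem sw_alg (a : F) : sw F (algebraMap F (CR (qc F)) a) = algebraMap F (CR (qc F)) a := by
  have := sw_pp (F := F) (C a)
  rw [C_comp] at this
  exact this

theorem sw_X : sw F (pp X) = - pp X := by
  rw [sw_pp, X_comp, map_neg]

theorem cj_alg (a : F) : cj (qc F) (algebraMap F (CR (qc F)) a) = algebraMap F (CR (qc F)) a :=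
  cj_pp (C a)

theorem norm_v (z : CR (qc F)) : ∃ r, phv F r = z * sw F z := by
  have hX : phv F X = yy (qc F) := by unfold phv; simp
  have hC : ∀ a, phv F (C a) = algebraMap F (CR (qc F)) a := fun a => by unfold phv; simp
  have hfix : ∀ a ∈ (phv F).range, sw F a = a := by
    rintro _ ⟨p, rfl⟩
    have : (sw F).comp (phv F) = phv F := by
      apply Polynomial.ringHom_ext
      · intro a; rw [RingHom.comp_apply, hC, sw_alg]
      · rw [RingHom.comp_apply, hX, sw_yy]
    exact congrArg (fun f => f p) this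
  have h18 : algebraMap F (CR (qc F)) (1 / 90) * algebraMap F (CR (qc F)) 90 = 1 := by
    rw [← map_mul]; norm_num
  have hF : ∀ a : F, algebraMap F (CR (qc F)) a ∈ (phv F).range := fun a => ⟨C a, hC a⟩
  have hv : yy (qc F) ∈ (phv F).range := ⟨X, hX⟩
  have hw : (pp X : CR (qc F)) ^ 2 ∈ (phv F).range := by
    have : (pp X : CR (qc F)) ^ 2 = algebraMap F (CR (qc F)) (1 / 90) *
        (yy (qc F) ^ 2 - algebraMap F (CR (qc F)) 30) := by
      linear_combination (-algebraMap F (CR (qc F)) (1 / 90)) * yyc_sq (F := F) - pp X ^ 2 * h18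
    rw [this]
    exact mul_mem (hF _) (sub_mem (pow_mem hv 2) (hF _))
  obtain ⟨a, ha, b, hb, c, hc, d, hd, rfl⟩ := decomp (phv F).range hF hw z
  have e : (a + b * pp X + (c + d * pp X) * yy (qc F)) *
      sw F (a + b * pp X + (c + d * pp X) * yy (qc F)) =
      (a + c * yy (qc F)) ^ 2 - (b + d * yy (qc F)) ^ 2 * pp X ^ 2 := by
    simp only [map_add, map_mul, hfix a ha, hfix b hb, hfix c hc, hfix d hd, sw_X, sw_yy]
    ring
  rw [e]
  exact sub_mem (pow_mem (add_mem ha (mul_mem hc hv)) 2)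
    (mul_mem (pow_mem (add_mem hb (mul_mem hd hv)) 2) hw)

theorem eval_phd : (X ^ 2 - C (qd F) : F[X][X]).eval₂
    (eval₂RingHom (algebraMap F (CR (qc F))) (pp X ^ 2)) (pp X * yy (qc F)) = 0 := by
  rw [eval₂_sub, eval₂_pow, eval₂_X, eval₂_C]
  unfold qd
  simp only [coe_eval₂RingHom, eval₂_add, eval₂_mul, eval₂_C, eval₂_pow, eval₂_X]
  linear_combination pp X ^ 2 * yyc_sq (F := F)

variable (F) in
/-- the quotient by `(w, v) ↦ (-w, -v)` -/
noncomputable def phd : CR (qd F) →+* CR (qc F) :=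
  AdjoinRoot.lift (eval₂RingHom (algebraMap F (CR (qc F))) (pp X ^ 2)) (pp X * yy (qc F)) eval_phd

theorem phd_pp (p : F[X]) : phd F (pp p) =
    eval₂RingHom (algebraMap F (CR (qc F))) (pp X ^ 2) p :=
  AdjoinRoot.lift_of (i := eval₂RingHom (algebraMap F (CR (qc F))) (pp X ^ 2)) (h := eval_phd) (x := p)

theorem phd_yy : phd F (yy (qd F)) = pp X * yy (qc F) :=
  AdjoinRoot.lift_root (i := eval₂RingHom (algebraMap F (CR (qc F))) (pp X ^ 2)) eval_phd

theorem norm_d (z : CR (qc F)) : ∃ r, phd F r = z * sw F (cj (qc F) z) := by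
  have hX : phd F (pp X) = pp X ^ 2 := by rw [phd_pp]; simp
  have hC : ∀ a, phd F (pp (C a)) = algebraMap F (CR (qc F)) a := fun a => by rw [phd_pp]; simp
  have hfix : ∀ a ∈ (phd F).range, sw F (cj (qc F) a) = a := by
    rintro _ ⟨r, rfl⟩
    obtain ⟨p, q, rfl⟩ := exists_el r
    have hp : ∀ p : F[X], sw F (cj (qc F) (phd F (pp p))) = phd F (pp p) := by
      intro p
      have : ((sw F).comp (cj (qc F))).comp ((phd F).comp pp) = (phd F).comp pp := by
        apply Polynomial.ringHom_ext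
        · intro a
          simp only [RingHom.comp_apply]
          rw [hC, cj_alg, sw_alg]
        · simp only [RingHom.comp_apply]
          rw [hX, map_pow, cj_pp, map_pow, sw_X]
          ring
      exact congrArg (fun f => f p) this
    unfold el
    rw [map_add, map_mul, map_add, map_mul, map_add, map_mul, hp, hp, phd_yy, map_mul, cj_pp, cj_yy,
      map_mul, sw_X, map_neg, sw_yy]
    ring
  have hF : ∀ a : F, algebraMap F (CR (qc F)) a ∈ (phd F).range := fun a => ⟨_, hC a⟩
  have hw : (pp X : CR (qc F)) ^ 2 ∈ (phd F).range := ⟨_, hX⟩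
  have hwv : pp X * yy (qc F) ∈ (phd F).range := ⟨_, phd_yy⟩
  have hv2 : yy (qc F) ^ 2 ∈ (phd F).range := by
    rw [yyc_sq]
    exact add_mem (mul_mem (hF _) hw) (hF _)
  obtain ⟨a, ha, b, hb, c, hc, d, hd, rfl⟩ := decomp (phd F).range hF hw z
  have e : (a + b * pp X + (c + d * pp X) * yy (qc F)) *
      sw F (cj (qc F) (a + b * pp X + (c + d * pp X) * yy (qc F))) =
      (a + d * (pp X * yy (qc F))) ^ 2 - (b ^ 2 * pp X ^ 2 + 2 * b * c * (pp X * yy (qc F)) +
        c ^ 2 * yy (qc F) ^ 2) := by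
    have : cj (qc F) (pp X) = pp X := cj_pp X
    simp only [map_add, map_mul, hfix a ha, hfix b hb, hfix c hc, hfix d hd, this, cj_yy, sw_X,
      map_neg, sw_yy]
    ring
  rw [e]
  have h2 : (2 : CR (qc F)) ∈ (phd F).range := by
    have := hF 2
    rwa [map_ofNat] at this
  exact sub_mem (pow_mem (add_mem ha (mul_mem hd hwv)) 2)
    (add_mem (add_mem (mul_mem (pow_mem hb 2) hw) (mul_mem (mul_mem (mul_mem h2 hb) hc) hwv))
      (mul_mem (pow_mem hc 2) hv2))

/-- the fourth powers of the ideals are principal -/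
theorem exp_C (h2 : ¬ IsSquare (10 : F)) (I : Ideal (CR (qc F))) : ∃ a, I ^ 4 = Ideal.span {a} := by
  have := ded_qc h2
  refine G2.exponent (R₁ := F[X]) (R₂ := CR (qd F)) (R₀ := F[X]) (phv F) (phd F) pp
    (σ₁ := RingEquiv.ofRingHom (sw F) (sw F) (RingHom.ext sw_sw) (RingHom.ext sw_sw))
    (σ₂ := RingEquiv.ofRingHom ((sw F).comp (cj (qc F))) ((sw F).comp (cj (qc F)))
      (RingHom.ext fun z => ?_) (RingHom.ext fun z => ?_))
    (τ := RingEquiv.ofRingHom (cj (qc F)) (cj (qc F)) (RingHom.ext cj_cj) (RingHom.ext cj_cj))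
    sw_sw (fun z => ?_) cj_cj (fun z => rfl) norm_v norm_d (fun z => ?_) 2 (fun J => ?_)
    (exp_D h2) I
  · simp only [RingHom.comp_apply, RingHom.id_apply]
    rw [cj_sw, sw_sw, cj_cj]
  · simp only [RingHom.comp_apply, RingHom.id_apply]
    rw [cj_sw, sw_sw, cj_cj]
  · show sw F (cj (qc F) (sw F (cj (qc F) z))) = z
    rw [cj_sw, sw_sw, cj_cj]
  · obtain ⟨p, q, rfl⟩ := exists_el z
    exact ⟨p ^ 2 - qc F * q ^ 2, (el_mul_cj p q).symm⟩
  · obtain ⟨a, ha⟩ := (IsPrincipalIdealRing.principal J).principal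
    exact ⟨a ^ 2, by rw [ha, Ideal.submodule_span_eq, Ideal.span_singleton_pow]⟩

end cc

end Pool.Agent.H81.G5
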