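import Pool.Graph.R_pool_sql_team_seeded_35f281b4.K7.H65.G4.Count

set_option autoImplicit false
set_option linter.unusedSectionVars false

/-!
# The number of points of `y² = 10 x⁶ - 150 x⁴ + 750 x² + 30` over finite fields
-/

namespace Pool.Agent.H81.G5

open Finset Pool.Agent.K7.H65
open Pool.Agent.K7.H65.G4 (rc2 card_sq sum_sext)

section sums

variable {E : Type} [Field E] [Fintype E] [DecidableEq E]

/-- the two character sums -/
theorem sum5 (h2 : (2 : E) ≠ 0) (h3 : (3 : E) ≠ 0) (h5 : (5 : E) ≠ 0) :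
    ∑ x : E, quadraticChar E (10 * x ^ 6 - 150 * x ^ 4 + 750 * x ^ 2 + 30) =
      2 * ∑ x : E, quadraticChar E (x ^ 3 + 0 * x + 2000) - quadraticChar E 10 := by
  have h4 : (4 : E) ≠ 0 := by
    have : (4 : E) = 2 * 2 := by norm_num
    rw [this]; exact mul_ne_zero h2 h2
  have e1 : ∀ x : E, quadraticChar E (10 * x ^ 6 - 150 * x ^ 4 + 750 * x ^ 2 + 30) =
      quadraticChar E 5 * quadraticChar E (2 * x ^ 6 - 30 * x ^ 4 + 150 * x ^ 2 + 6) := by
    intro x
    rw [← map_mul]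
    congr 1
    ring
  have e2 : quadraticChar E 10 = quadraticChar E 5 * quadraticChar E 2 := by
    rw [← map_mul]
    congr 1
    norm_num
  have e3 : quadraticChar E 5 * ∑ u : E, quadraticChar E (2 * u ^ 3 - 30 * u ^ 2 + 150 * u + 6) =
      ∑ x : E, quadraticChar E (x ^ 3 + 0 * x + 2000) := by
    rw [mul_sum]
    have f1 : ∑ x : E, quadraticChar E (x ^ 3 + 0 * x + 2000) =
        ∑ t : E, quadraticChar E ((5 * t) ^ 3 + 0 * (5 * t) + 2000) :=
      (Fintype.sum_equiv (Equiv.mulLeft₀ (5 : E) h5) _ _ fun t => rfl).symm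
    have f2 : ∑ u : E, quadraticChar E 5 *
        quadraticChar E (2 * u ^ 3 - 30 * u ^ 2 + 150 * u + 6) = ∑ t : E, quadraticChar E 5 *
        quadraticChar E (2 * (2 * t + 5) ^ 3 - 30 * (2 * t + 5) ^ 2 + 150 * (2 * t + 5) + 6) :=
      (Fintype.sum_equiv ((Equiv.mulLeft₀ (2 : E) h2).trans (Equiv.addRight (5 : E))) _ _
        fun t => rfl).symm
    rw [f1, f2]
    refine sum_congr rfl fun t _ => ?_
    have g1 : quadraticChar E (5 ^ 2) = 1 := quadraticChar_sq_one' h5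
    have g2 : quadraticChar E (4 ^ 2) = 1 := quadraticChar_sq_one' h4
    calc quadraticChar E 5 *
        quadraticChar E (2 * (2 * t + 5) ^ 3 - 30 * (2 * t + 5) ^ 2 + 150 * (2 * t + 5) + 6) =
        quadraticChar E (5 ^ 2) * (quadraticChar E 5 *
        quadraticChar E (2 * (2 * t + 5) ^ 3 - 30 * (2 * t + 5) ^ 2 + 150 * (2 * t + 5) + 6)) := by
          rw [g1, one_mul]
      _ = quadraticChar E (4 ^ 2) * quadraticChar E ((5 * t) ^ 3 + 0 * (5 * t) + 2000) := by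
          rw [← map_mul, ← map_mul, ← map_mul]
          congr 1
          ring
      _ = _ := by rw [g2, one_mul]
  simp_rw [e1]
  rw [← mul_sum, sum_sext h2 h3, e2, ← e3]
  ring

end sums

section count

open Pool.Agent.H341R2.Sharp Pool.Agent.H126T W165.CE Pool.Agent.H82R3.EK

variable {k : Type} [Field k] [Finite k]

/-- the number of points of the smooth projective curve `y² = 10 x⁶ - 150 x⁴ + 750 x² + 30` over the
finite field `E` -/
noncomputable def pts (E : Type) [Field E] : ℕ :=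
  Nat.card {P : E × E // P.2 ^ 2 = 10 * P.1 ^ 6 - 150 * P.1 ^ 4 + 750 * P.1 ^ 2 + 30} +
    Nat.card {z : E // z ^ 2 = 10}

/-- the number of points over the extension of degree `n` -/
theorem pts_eq (h2 : (2 : k) ≠ 0) (h3 : (3 : k) ≠ 0) (h5 : (5 : k) ≠ 0) (α β : ℂ)
    (hα : α + β = (Nat.card k : ℂ) - Nat.card {P : k × k // P.2 ^ 2 = P.1 ^ 3 + 0 * P.1 + 2000})
    (hβ : α * β = Nat.card k) (n : ℕ) (hn : 1 ≤ n) (E : Type) [Field E] [Finite E] (φ : k →+* E)
    (hE : Nat.card E = Nat.card k ^ n) :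
    (pts E : ℂ) = (Nat.card E : ℂ) + 1 - (α ^ n + β ^ n + α ^ n + β ^ n) := by
  classical
  let _ := Fintype.ofFinite k
  let _ := Fintype.ofFinite E
  let _ : Algebra k E := φ.toAlgebra
  have hF : ringChar k ≠ 2 := rc2 h2
  have hE2 : ringChar E ≠ 2 := by rwa [← Algebra.ringChar_eq k E]
  have h2E : (2 : E) ≠ 0 := by
    rw [← map_ofNat φ 2]; exact (_root_.map_ne_zero _).2 h2
  have h3E : (3 : E) ≠ 0 := by
    rw [← map_ofNat φ 3]; exact (_root_.map_ne_zero _).2 h3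
  have h5E : (5 : E) ≠ 0 := by
    rw [← map_ofNat φ 5]; exact (_root_.map_ne_zero _).2 h5
  have hdisc : 4 * (0 : k) ^ 3 + 27 * 2000 ^ 2 ≠ 0 := by
    have : 4 * (0 : k) ^ 3 + 27 * 2000 ^ 2 = 2 ^ 8 * 3 ^ 3 * 5 ^ 6 := by norm_num
    rw [this]
    exact mul_ne_zero (mul_ne_zero (pow_ne_zero _ h2) (pow_ne_zero _ h3)) (pow_ne_zero _ h5)
  have t1 := G3.T_wei h2 (0 : k) 2000 hdisc α β hα hβ E n hn hE
  rw [map_zero, map_ofNat] at t1
  have h := card_points hE2 (fun x : E => 10 * x ^ 6 - 150 * x ^ 4 + 750 * x ^ 2 + 30)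
  rw [sum5 h2E h3E h5E] at h
  have hz : ((Nat.card {z : E // z ^ 2 = 10} : ℕ) : ℤ) = quadraticChar E 10 + 1 := by
    rw [← card_sq h2E, Nat.card_eq_fintype_card, Fintype.card_subtype]
  unfold pts
  have h' : ((Nat.card {P : E × E // P.2 ^ 2 = 10 * P.1 ^ 6 - 150 * P.1 ^ 4 + 750 * P.1 ^ 2 + 30} +
      Nat.card {z : E // z ^ 2 = 10} : ℕ) : ℤ) = Fintype.card E + 1 +
        2 * ∑ x : E, quadraticChar E (x ^ 3 + 0 * x + 2000) := by
    rw [Nat.cast_add, hz, h]
    ring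
  have h'' : ((Nat.card {P : E × E // P.2 ^ 2 = 10 * P.1 ^ 6 - 150 * P.1 ^ 4 + 750 * P.1 ^ 2 + 30} +
      Nat.card {z : E // z ^ 2 = 10} : ℕ) : ℂ) =
      (((Nat.card {P : E × E // P.2 ^ 2 = 10 * P.1 ^ 6 - 150 * P.1 ^ 4 + 750 * P.1 ^ 2 + 30} +
      Nat.card {z : E // z ^ 2 = 10} : ℕ) : ℤ) : ℂ) := (Int.cast_natCast _).symm
  rw [h'', h', Int.cast_add, Int.cast_mul, t1, Nat.card_eq_fintype_card]
  push_cast
  ring

end count

end Pool.Agent.H81.G5
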