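import Pool.Agent.H81.G5.Quot
import Pool.Agent.H81.G5.Grp
import Pool.Graph.R_pool_sql_team_seeded_35f281b4.K7.H65.G4.Tors

set_option autoImplicit false
set_option linter.unusedSectionVars false

/-!
# Extension of ideal classes along injective homomorphisms
-/

namespace Pool.Agent.H81.G5

open Polynomial Pool.Agent.TH943.HJ Pool.Agent.K7.H65
open Pool.Agent.K7.H65.G4 (map_ne_bot)
open scoped nonZeroDivisors

section ext

variable {R B C : Type} [CommRing R] [IsDedekindDomain R] [CommRing B] [IsDedekindDomain B]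
  [CommRing C] [IsDedekindDomain C]

theorem map_mem (φ : R →+* B) (hφ : Function.Injective φ) (I : (Ideal R)⁰) :
    (I : Ideal R).map φ ∈ (Ideal B)⁰ := by
  refine mem_nonZeroDivisors_of_ne_zero fun h => nonZeroDivisors.coe_ne_zero I ?_
  exact (Ideal.map_eq_bot_iff_of_injective hφ).1 h

/-- the extension of ideal classes -/
noncomputable def ext (φ : R →+* B) (hφ : Function.Injective φ) : ClassGroup R →* ClassGroup B :=
  letI := φ.toAlgebra
  haveI : FaithfulSMul R B := (faithfulSMul_iff_algebraMap_injective _ _).2 hφ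
  haveI : Module.IsTorsionFree R B := inferInstance
  ClassGroup.extendedHom R B

theorem ext_mk0 (φ : R →+* B) (hφ : Function.Injective φ) (I : (Ideal R)⁰) :
    ext φ hφ (ClassGroup.mk0 I) = ClassGroup.mk0 ⟨(I : Ideal R).map φ, map_mem φ hφ I⟩ := by
  let _ := φ.toAlgebra
  have : FaithfulSMul R B := (faithfulSMul_iff_algebraMap_injective _ _).2 hφ
  have : Module.IsTorsionFree R B := inferInstance
  exact ClassGroup.extendedHom_mk0 R B I

theorem ext_ext (φ : R →+* B) (hφ : Function.Injective φ) (ψ : B →+* C) (hψ : Function.Injective ψ)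
    (χ : R →+* C) (hχ : Function.Injective χ) (h : ∀ z, ψ (φ z) = χ z) (c : ClassGroup R) :
    ext ψ hψ (ext φ hφ c) = ext χ hχ c := by
  obtain ⟨I, rfl⟩ := ClassGroup.mk0_surjective c
  rw [ext_mk0, ext_mk0, ext_mk0]
  congr 1
  apply Subtype.ext
  show ((I : Ideal R).map φ).map ψ = (I : Ideal R).map χ
  rw [Ideal.map_map]
  congr 1
  exact RingHom.ext h

theorem ext_id (φ : R →+* R) (hφ : Function.Injective φ) (h : ∀ z, φ z = z) (c : ClassGroup R) :
    ext φ hφ c = c := by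
  obtain ⟨I, rfl⟩ := ClassGroup.mk0_surjective c
  rw [ext_mk0]
  congr 1
  apply Subtype.ext
  show (I : Ideal R).map φ = (I : Ideal R)
  have : φ = RingHom.id R := RingHom.ext h
  rw [this, Ideal.map_id]

end ext

section desc

variable {R B : Type} [CommRing R] [CommRing B]

/-- a trace from `B` to `R` up to powers of `T` -/
structure Trace (φ : R →+* B) (T : R) where
  τ : B →+ B
  mul : ∀ r b, τ (φ r * b) = φ r * τ b
  two : ∀ r, τ (φ r) = 2 * φ r
  mem : ∀ b, ∃ (n : ℕ) (r : R), φ r = φ T ^ n * τ b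

theorem Trace.le {φ : R →+* B} {T : R} (t : Trace φ T) [IsNoetherianRing R]
    (hφ : Function.Injective φ) {c : R} (hc : c * 2 = 1) {I₁ I₂ : Ideal R}
    (h : I₁.map φ ≤ I₂.map φ) : ∃ N : ℕ, Ideal.span {T ^ N} * I₁ ≤ I₂ := by
  classical
  have key : ∀ z ∈ I₂.map φ, ∀ b : B, ∃ (n : ℕ) (y : R), y ∈ I₂ ∧ φ y = φ T ^ n * t.τ (b * z) := by
    intro z hz
    refine Submodule.span_induction (p := fun z _ => ∀ b : B, ∃ (n : ℕ) (y : R), y ∈ I₂ ∧
      φ y = φ T ^ n * t.τ (b * z)) ?_ ?_ ?_ ?_ hz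
    · rintro _ ⟨i, hi, rfl⟩ b
      obtain ⟨n, r, hr⟩ := t.mem b
      refine ⟨n, i * r, I₂.mul_mem_right _ hi, ?_⟩
      rw [map_mul, hr, mul_comm b, t.mul]
      ring
    · intro b
      exact ⟨0, 0, I₂.zero_mem, by simp⟩
    · intro x y _ _ hx hy b
      obtain ⟨n, u, hu, h1⟩ := hx b
      obtain ⟨m, v, hv, h2⟩ := hy b
      refine ⟨n + m, T ^ m * u + T ^ n * v, I₂.add_mem (I₂.mul_mem_left _ hu)
        (I₂.mul_mem_left _ hv), ?_⟩
      rw [map_add, map_mul, map_mul, map_pow, map_pow, h1, h2, mul_add, map_add]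
      ring
    · intro a x _ hx b
      obtain ⟨n, u, hu, h1⟩ := hx (b * a)
      refine ⟨n, u, hu, ?_⟩
      rw [h1, smul_eq_mul, mul_assoc]
  have key2 : ∀ g ∈ I₁, ∃ n : ℕ, T ^ n * g ∈ I₂ := by
    intro g hg
    obtain ⟨n, y, hy, h1⟩ := key _ (h (Ideal.mem_map_of_mem φ hg)) 1
    rw [one_mul, t.two] at h1
    have h2 : y = T ^ n * (2 * g) := by
      apply hφ
      rw [h1, map_mul, map_mul, map_pow, map_ofNat]
    refine ⟨n, ?_⟩
    have h3 : T ^ n * g = c * y := by
      rw [h2]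
      linear_combination (-(T ^ n * g)) * hc
    rw [h3]
    exact I₂.mul_mem_left _ hy
  obtain ⟨s, hs⟩ := IsNoetherian.noetherian I₁
  choose! n hn using key2
  refine ⟨∑ g ∈ s, n g, ?_⟩
  rw [Ideal.span_singleton_mul_le_iff]
  intro z hz
  rw [← hs] at hz
  refine Submodule.span_induction (p := fun z _ => T ^ (∑ g ∈ s, n g) * z ∈ I₂) ?_ ?_ ?_ ?_ hz
  · intro g hg
    have hg1 : g ∈ I₁ := by rw [← hs]; exact Submodule.subset_span hg
    have hle : n g ≤ ∑ g ∈ s, n g := Finset.single_le_sum (fun _ _ => Nat.zero_le _) hg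
    obtain ⟨m, hm⟩ := Nat.exists_eq_add_of_le hle
    rw [hm, pow_add, mul_comm (T ^ n g), mul_assoc]
    exact I₂.mul_mem_left _ (hn g hg1)
  · simp
  · intro x y _ _ hx hy
    rw [mul_add]
    exact I₂.add_mem hx hy
  · intro a x _ hx
    rw [smul_eq_mul, mul_left_comm]
    exact I₂.mul_mem_left _ hx

theorem dvd_one [IsDedekindDomain R] {p : R} (hp : Prime p) (n : ℕ) (K : Ideal R)
    (hK : K ∣ Ideal.span {p ^ n}) : ∃ c, K = Ideal.span {c} := by
  have hP : Prime (Ideal.span {p}) :=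
    Ideal.prime_of_isPrime (by rw [Ne, Ideal.span_singleton_eq_bot]; exact hp.ne_zero)
      ((Ideal.span_singleton_prime hp.ne_zero).2 hp)
  rw [← Ideal.span_singleton_pow] at hK
  obtain ⟨i, -, hi⟩ := (dvd_prime_pow hP _).1 hK
  rw [associated_iff_eq] at hi
  exact ⟨p ^ i, by rw [hi, Ideal.span_singleton_pow]⟩

/-- descent -/
theorem Trace.descend {φ : R →+* B} {T : R} (t : Trace φ T) [IsDedekindDomain R]
    (hφ : Function.Injective φ) {c : R} (hc : c * 2 = 1) (hT : Prime T) {I : Ideal R} {a : R}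
    (h : I.map φ = Ideal.span {φ a}) : ∃ a, I = Ideal.span {a} := by
  rcases eq_or_ne I ⊥ with rfl | hI
  · exact ⟨0, by simp⟩
  have h2 : I.map φ = (Ideal.span {a}).map φ := by
    rw [h, Ideal.map_span, Set.image_singleton]
  have ha0 : a ≠ 0 := by
    rintro rfl
    have h3 : I.map φ = ⊥ := by
      rw [h2, Ideal.span_singleton_eq_bot.2 rfl, Ideal.map_bot]
    exact hI ((Ideal.map_eq_bot_iff_of_injective hφ).1 h3)
  obtain ⟨N, hN⟩ := t.le hφ hc h2.le
  obtain ⟨M, hM'⟩ := t.le hφ hc h2.ge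
  obtain ⟨K, hK1⟩ := Ideal.dvd_iff_le.2 hN
  obtain ⟨K', hK'⟩ := Ideal.dvd_iff_le.2 hM'
  have hsa : Ideal.span {a} ≠ (0 : Ideal R) := fun h0 => ha0 (Ideal.span_singleton_eq_bot.1 h0)
  have h4 : K * K' = Ideal.span {T ^ (N + M)} := by
    have h5 : (I * Ideal.span {a}) * (K * K') = (I * Ideal.span {a}) * Ideal.span {T ^ (N + M)} := by
      calc (I * Ideal.span {a}) * (K * K') = (Ideal.span {a} * K) * (I * K') := by ring
        _ = (Ideal.span {T ^ N} * I) * (Ideal.span {T ^ M} * Ideal.span {a}) := by rw [← hK1, ← hK']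
        _ = (I * Ideal.span {a}) * (Ideal.span {T ^ N} * Ideal.span {T ^ M}) := by ring
        _ = _ := by rw [Ideal.span_singleton_mul_span_singleton, ← pow_add]
    exact mul_left_cancel₀ (mul_ne_zero hI hsa) h5
  obtain ⟨d, hd⟩ := dvd_one hT _ K (Dvd.intro _ h4)
  have h7 : I * Ideal.span {T ^ N} = Ideal.span {a * d} := by
    rw [mul_comm, hK1, hd, Ideal.span_singleton_mul_span_singleton]
  exact G2.principal_of_mul (pow_ne_zero N hT.ne_zero) h7

/-- twice a class which becomes trivial is trivial -/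
theorem Trace.sq {φ : R →+* B} {T : R} (t : Trace φ T) [IsDedekindDomain R]
    (hφ : Function.Injective φ) {c : R} (hc : c * 2 = 1) (hT : Prime T) (σ : B →+* B)
    (hσ : ∀ r, σ (φ r) = φ r) (hN : ∀ z, ∃ r w, IsUnit w ∧ φ r = w * (z * σ z)) {J : Ideal R} {b : B}
    (h : J.map φ = Ideal.span {b}) : ∃ a, J ^ 2 = Ideal.span {a} := by
  obtain ⟨r, w, hw, hr⟩ := hN b
  refine t.descend hφ hc hT (a := r) ?_
  have h1 : (J.map φ).map σ = J.map φ := by
    rw [Ideal.map_map]
    congr 1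
    exact RingHom.ext hσ
  rw [Ideal.map_pow, pow_two]
  nth_rw 2 [← h1]
  rw [h, Ideal.map_span, Set.image_singleton, Ideal.span_singleton_mul_span_singleton, hr]
  rw [Ideal.span_singleton_mul_left_unit hw]

end desc

end Pool.Agent.H81.G5
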