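import Pool.Agent.H81.G5.Count
import Pool.Graph.R_pool_sql_team_seeded_35f281b4.K7.H65.G4.Lfun
import Pool.Graph.R_pool_sql_team_seeded_35f281b4.K7.H70.TW.D

set_option autoImplicit false
set_option linter.unusedSectionVars false

/-!
# The `L`-function of `y² = 10 x⁶ - 150 x⁴ + 750 x² + 30`
-/

namespace Pool.Agent.H81.G5

open Finset NumberField IsDedekindDomain IsLocalRing WeierstrassCurve
open Pool.Agent.Y696
open Pool.Agent.W189.NF (aV eV Ov card_res finite_res redMap redMap_eq_zero)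
open Pool.Agent.H921R2.TatePole (nm two_le_nm)
open Pool.Agent.K7.H65.G4 (exists_rts)

/-- `y² = x³ + 2000` -/
abbrev E5 (K : Type) [Field K] : WeierstrassCurve K := ⟨0, 0, 0, 0, 2000⟩

theorem card_iso {k k' : Type} [Field k] [Field k'] (e : k ≃+* k') :
    Nat.card {P : k × k // P.2 ^ 2 = P.1 ^ 3 + 0 * P.1 + 2000} =
      Nat.card {P : k' × k' // P.2 ^ 2 = P.1 ^ 3 + 0 * P.1 + 2000} := by
  refine Nat.card_congr
    { toFun := fun p => ⟨(e p.1.1, e p.1.2), ?_⟩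
      invFun := fun p => ⟨(e.symm p.1.1, e.symm p.1.2), ?_⟩
      left_inv := ?_
      right_inv := ?_ }
  · have := congrArg e p.2
    simpa only [map_add, map_pow, map_mul, map_zero, map_ofNat] using this
  · have := congrArg e.symm p.2
    simpa only [map_add, map_pow, map_mul, map_zero, map_ofNat] using this
  · rintro ⟨⟨x, y⟩, h⟩
    simp
  · rintro ⟨⟨x, y⟩, h⟩
    simp

section main

variable {k : Type} [Field k] [NumberField k]

theorem mem_of_thirty {v : HeightOneSpectrum (𝓞 k)} (h : (30 : 𝓞 k) ∉ v.asIdeal) :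
    (2 : 𝓞 k) ∉ v.asIdeal ∧ (3 : 𝓞 k) ∉ v.asIdeal ∧ (5 : 𝓞 k) ∉ v.asIdeal := by
  have e : (30 : 𝓞 k) = 2 * 3 * 5 := by norm_num
  refine ⟨fun h' => h ?_, fun h' => h ?_, fun h' => h ?_⟩
  · rw [e]; exact v.asIdeal.mul_mem_right _ (v.asIdeal.mul_mem_right _ h')
  · rw [e]; exact v.asIdeal.mul_mem_right _ (v.asIdeal.mul_mem_left _ h')
  · rw [e]; exact v.asIdeal.mul_mem_left _ h'

/-- the trace of Frobenius -/
theorem aV_card (v : HeightOneSpectrum (𝓞 k)) (h : (30 : 𝓞 k) ∉ v.asIdeal) :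
    (aV (E5 k) v : ℂ) = (Nat.card (𝓞 k ⧸ v.asIdeal) : ℂ) -
      Nat.card {P : (𝓞 k ⧸ v.asIdeal) × (𝓞 k ⧸ v.asIdeal) // P.2 ^ 2 = P.1 ^ 3 + 0 * P.1 + 2000} ∧
    (eV (E5 k) v : ℂ) = Nat.card (𝓞 k ⧸ v.asIdeal) := by
  obtain ⟨h2, h3, h5⟩ := mem_of_thirty h
  have : v.asIdeal.IsMaximal := v.isMaximal
  let _ : Field (𝓞 k ⧸ v.asIdeal) := Ideal.Quotient.field v.asIdeal
  have : Finite (𝓞 k ⧸ v.asIdeal) := Ideal.finiteQuotientOfFreeOfNeBot _ v.ne_bot
  have hfin := finite_res v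
  set W0 : WeierstrassCurve (Ov v) := ⟨0, 0, 0, 0, 2000⟩ with hW0
  have hmapR : W0.map (residue (Ov v)) = ⟨0, 0, 0, 0, 2000⟩ := by
    rw [hW0]
    unfold WeierstrassCurve.map
    simp only [map_zero, map_ofNat]
  have hmapL : W0.map (algebraMap (Ov v) (v.adicCompletion k)) = ⟨0, 0, 0, 0, 2000⟩ := by
    rw [hW0]
    unfold WeierstrassCurve.map
    simp only [map_zero, map_ofNat]
  have hΔ : IsUnit W0.Δ := by
    rw [← residue_ne_zero_iff_isUnit]
    have e0 : W0.Δ = -432 * 2000 ^ 2 := by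
      rw [hW0]
      unfold WeierstrassCurve.Δ WeierstrassCurve.b₂ WeierstrassCurve.b₄ WeierstrassCurve.b₆
        WeierstrassCurve.b₈
      ring
    have e1 : residue (Ov v) W0.Δ = redMap v (-(2 ^ 12 * 3 ^ 3 * 5 ^ 6)) := by
      show _ = residue (Ov v) (algebraMap (𝓞 k) (Ov v) (-(2 ^ 12 * 3 ^ 3 * 5 ^ 6)))
      congr 1
      rw [e0]
      simp only [map_neg, map_mul, map_pow, map_ofNat]
      ring
    rw [e1, Ne, redMap_eq_zero]
    intro h1
    have h2' := v.asIdeal.neg_mem h1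
    rw [neg_neg] at h2'
    rcases v.isPrime.mem_or_mem h2' with h4 | h4
    · rcases v.isPrime.mem_or_mem h4 with h6 | h6
      · exact h2 (v.isPrime.mem_of_pow_mem _ h6)
      · exact h3 (v.isPrime.mem_of_pow_mem _ h6)
    · exact h5 (v.isPrime.mem_of_pow_mem _ h4)
  have hW' : (E5 k).baseChange (v.adicCompletion k) =
      (1 : VariableChange (v.adicCompletion k)) • W0.map (algebraMap (Ov v) (v.adicCompletion k)) := by
    rw [one_smul, hmapL]
    show (E5 k).map (algebraMap k (v.adicCompletion k)) = _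
    unfold WeierstrassCurve.map
    simp only [map_zero, map_ofNat]
  obtain ⟨h6, h7⟩ := Pool.Agent.K7.H89.TW.aLoc_model (Ov v) _ _ _ hΔ hW'
  have h10 : Nat.card (ResidueField (Ov v)) = nm v := card_res v
  have hn : Nat.card (𝓞 k ⧸ v.asIdeal) = nm v := rfl
  let _ : Fintype (ResidueField (Ov v)) := Fintype.ofFinite _
  let _ : Fintype (𝓞 k ⧸ v.asIdeal) := Fintype.ofFinite _
  have hc : Fintype.card (ResidueField (Ov v)) = Fintype.card (𝓞 k ⧸ v.asIdeal) := by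
    rw [← Nat.card_eq_fintype_card, ← Nat.card_eq_fintype_card, hn]
    exact h10
  have e := FiniteField.ringEquivOfCardEq hc
  have h8 : Pool.Agent.Y688.nsol (W0.map (residue (Ov v))) = Nat.card {P : (𝓞 k ⧸ v.asIdeal) ×
      (𝓞 k ⧸ v.asIdeal) // P.2 ^ 2 = P.1 ^ 3 + 0 * P.1 + 2000} := by
    rw [← card_iso e, hmapR]
    unfold Pool.Agent.Y688.nsol
    refine Nat.card_congr (Equiv.subtypeEquivRight fun P => ?_)
    rw [Affine.equation_iff]
    simp only [zero_mul, add_zero]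
  constructor
  · have : aV (E5 k) v = (nm v : ℤ) - Nat.card {P : (𝓞 k ⧸ v.asIdeal) × (𝓞 k ⧸ v.asIdeal) //
        P.2 ^ 2 = P.1 ^ 3 + 0 * P.1 + 2000} := by
      unfold aV
      rw [h6, h8, h10]
    rw [this, hn]
    push_cast
    rfl
  · have : eV (E5 k) v = (nm v : ℤ) := by
      unfold eV
      rw [h7, h10]
    rw [this, hn]
    push_cast
    rfl

/-- the local polynomial -/
noncomputable def Pv (v : HeightOneSpectrum (𝓞 k)) (s : ℂ) : ℂ :=
  1 - (aV (E5 k) v : ℂ) * (nm v : ℂ) ^ (-s) + (eV (E5 k) v : ℂ) * ((nm v : ℂ) ^ (-s)) ^ 2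

theorem Pv_ne (h : ∀ v : HeightOneSpectrum (𝓞 k), HBd (aV (E5 k) v) (eV (E5 k) v) (nm v))
    (v : HeightOneSpectrum (𝓞 k)) (s : ℂ) (hs : 1 ≤ s.re) : Pv v s ≠ 0 := by
  unfold Pv
  rcases h v with ⟨h1, h2⟩ | ⟨x, h1, h2, h3⟩
  · rw [h1, h2]; simp
  · rw [h1, h2]
    set w := (nm v : ℂ) ^ (-s) with hw
    have hq2 : (2 : ℝ) ≤ nm v := by exact_mod_cast two_le_nm v
    have hx : ‖x‖ ^ 2 = nm v := by
      have := Complex.mul_conj x
      rw [h3] at this
      rw [← Complex.normSq_eq_norm_sq]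
      exact_mod_cast this.symm
    have hwn : ‖w‖ ≤ (nm v : ℝ)⁻¹ := by
      rw [hw, Complex.norm_natCast_cpow_of_pos (by have := two_le_nm v; omega), Complex.neg_re,
        ← Real.rpow_neg_one]
      exact Real.rpow_le_rpow_of_exponent_le (by linarith) (by linarith)
    have hlt : ‖x‖ * ‖w‖ < 1 := by
      have hq0 : (0 : ℝ) < nm v := by linarith
      have h5 : ‖x‖ * ‖w‖ ≤ ‖x‖ * (nm v : ℝ)⁻¹ := by gcongr
      refine h5.trans_lt ?_
      rw [← div_eq_mul_inv, div_lt_one hq0, ← hx]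
      have h6 : 1 < ‖x‖ := by
        by_contra hc
        push Not at hc
        have : ‖x‖ ^ 2 ≤ 1 := pow_le_one₀ (norm_nonneg _) hc
        rw [hx] at this
        linarith
      nlinarith
    have h7 : 1 - (x + (starRingEnd ℂ) x) * w + (x * (starRingEnd ℂ) x) * w ^ 2 =
        (1 - x * w) * (1 - (starRingEnd ℂ) x * w) := by ring
    rw [h7]
    refine mul_ne_zero ?_ ?_
    · intro h8
      have h9 : x * w = 1 := by linear_combination -h8
      have : ‖x * w‖ = 1 := by rw [h9, norm_one]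
      rw [norm_mul] at this
      linarith
    · intro h8
      have h9 : (starRingEnd ℂ) x * w = 1 := by linear_combination -h8
      have : ‖(starRingEnd ℂ) x * w‖ = 1 := by rw [h9, norm_one]
      rw [norm_mul, RCLike.norm_conj] at this
      linarith

theorem Pv_diff (v : HeightOneSpectrum (𝓞 k)) : Differentiable ℂ (Pv v) := by
  have hc : Differentiable ℂ (fun s : ℂ => (nm v : ℂ) ^ (-s)) :=
    Differentiable.const_cpow differentiable_neg (Or.inl (by
      have := two_le_nm v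
      have : nm v ≠ 0 := by omega
      exact_mod_cast this))
  exact ((differentiable_const _).sub (hc.const_mul _)).add ((hc.pow 2).const_mul _)

/-- the statement on the `L`-function of `X` -/
def IsLX (k : Type) [Field k] [NumberField k] (F : ℂ → ℂ) : Prop :=
  ∃ α : HeightOneSpectrum (𝓞 k) → Fin 4 → ℂ,
    (∀ v : HeightOneSpectrum (𝓞 k), (30 : 𝓞 k) ∉ v.asIdeal →
      ∀ n : ℕ, 1 ≤ n → ∀ (E : Type) [Field E] [Finite E] (φ : 𝓞 k →+* E),
        RingHom.ker φ = v.asIdeal → Nat.card E = Nat.card (𝓞 k ⧸ v.asIdeal) ^ n →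
          (pts E : ℂ) = (Nat.card E : ℂ) + 1 - ∑ j, α v j ^ n) ∧
    ∀ s : ℂ, (3 : ℝ) / 2 < s.re → HasProd (fun v : HeightOneSpectrum (𝓞 k) =>
      open Classical in
      if (30 : 𝓞 k) ∈ v.asIdeal then 1 else
        (∏ j, (1 - α v j * (Nat.card (𝓞 k ⧸ v.asIdeal) : ℂ) ^ (-s)))⁻¹) (F s)

theorem exists_LX (hH : ∀ v : HeightOneSpectrum (𝓞 k), HBd (aV (E5 k) v) (eV (E5 k) v) (nm v))
    {U : Set ℂ} (h1U : (1 : ℂ) ∈ U) {Lf : ℂ → ℂ} (ha : AnalyticOnNhd ℂ Lf U) {r : ℕ}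
    (h1 : analyticOrderAt Lf 1 = r) (hs : ∀ s : ℂ, 3 / 2 < s.re → Lf s = (E5 k).LSeries s) :
    ∃ F : ℂ → ℂ, AnalyticOnNhd ℂ F U ∧ IsLX k F ∧ analyticOrderAt F 1 = (2 * r : ℕ) := by
  classical
  have h300 : (30 : 𝓞 k) ≠ 0 := by
    have : ((30 : ℕ) : 𝓞 k) ≠ 0 := by
      rw [Nat.cast_ne_zero]; norm_num
    exact_mod_cast this
  have hfin : {v : HeightOneSpectrum (𝓞 k) | (30 : 𝓞 k) ∈ v.asIdeal}.Finite := by
    have h : {v : HeightOneSpectrum (𝓞 k) | v.asIdeal ∣ Ideal.span {(30 : 𝓞 k)}}.Finite :=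
      Ideal.finite_factors (fun h => h300 (Ideal.span_singleton_eq_bot.1 h))
    exact h.subset fun v hv => Ideal.dvd_span_singleton.2 hv
  let T : Finset (HeightOneSpectrum (𝓞 k)) := hfin.toFinset
  have hT : ∀ v, v ∈ T ↔ (30 : 𝓞 k) ∈ v.asIdeal := fun v => by simp [T]
  choose α β hαβ hαβ' using fun v : HeightOneSpectrum (𝓞 k) =>
    exists_rts (aV (E5 k) v : ℂ) (eV (E5 k) v : ℂ)
  have hGd : Differentiable ℂ (fun s => ∏ v ∈ T, Pv v s ^ 2) :=
    Differentiable.fun_finsetProd fun v _ => (Pv_diff v).pow 2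
  have hnm : ∀ v : HeightOneSpectrum (𝓞 k), Nat.card (𝓞 k ⧸ v.asIdeal) = nm v := fun v => rfl
  have hG1 : (∏ v ∈ T, Pv v 1 ^ 2) ≠ 0 :=
    prod_ne_zero_iff.2 fun v _ => pow_ne_zero 2 (Pv_ne hH v 1 (by simp))
  refine ⟨(Lf * Lf) * (fun s => ∏ v ∈ T, Pv v s ^ 2),
    (ha.mul ha).mul (fun z _ => hGd.analyticAt z),
    ⟨fun v => ![α v, β v, α v, β v], ?_, ?_⟩, ?_⟩
  · intro v hv n hn E _ _ φ hker hE
    obtain ⟨h2v, h3v, h5v⟩ := mem_of_thirty hv
    have : v.asIdeal.IsMaximal := v.isMaximal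
    obtain ⟨k1, k2⟩ := aV_card v hv
    let _ : Field (𝓞 k ⧸ v.asIdeal) := Ideal.Quotient.field v.asIdeal
    have : Finite (𝓞 k ⧸ v.asIdeal) := Ideal.finiteQuotientOfFreeOfNeBot _ v.ne_bot
    have hk : ∀ (m : ℕ), ((m : ℕ) : 𝓞 k) ∉ v.asIdeal → (m : 𝓞 k ⧸ v.asIdeal) ≠ 0 := by
      intro m hm h
      apply hm
      rw [← Ideal.Quotient.eq_zero_iff_mem, map_natCast]
      exact h
    have h2k : (2 : 𝓞 k ⧸ v.asIdeal) ≠ 0 := by exact_mod_cast hk 2 (by exact_mod_cast h2v)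
    have h3k : (3 : 𝓞 k ⧸ v.asIdeal) ≠ 0 := by exact_mod_cast hk 3 (by exact_mod_cast h3v)
    have h5k : (5 : 𝓞 k ⧸ v.asIdeal) ≠ 0 := by exact_mod_cast hk 5 (by exact_mod_cast h5v)
    let ψ : 𝓞 k ⧸ v.asIdeal →+* E := Ideal.Quotient.lift v.asIdeal φ (fun a ha => by
      rw [← hker] at ha; exact ha)
    have h9 := pts_eq h2k h3k h5k (α v) (β v) ((hαβ v).trans k1) ((hαβ' v).trans k2) n hn E ψ hE
    rw [h9]
    simp only [Fin.sum_univ_four, Matrix.cons_val_zero, Matrix.cons_val_one, Matrix.cons_val]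
  · intro s hs'
    have h5 := (LSeries_hasProd' (E5 k) hH hs').2
    rw [← hs s hs'] at h5
    have h5' : HasProd (fun v : HeightOneSpectrum (𝓞 k) => (Pv v s)⁻¹) (Lf s) := h5
    have h6 : HasProd (fun v => if v ∈ T then Pv v s ^ 2 else 1) (∏ v ∈ T, Pv v s ^ 2) := by
      have h0 : HasProd (fun v => if v ∈ T then Pv v s ^ 2 else 1)
          (∏ v ∈ T, if v ∈ T then Pv v s ^ 2 else 1) :=
        hasProd_prod_of_ne_finset_one (fun b hb => by simp [hb])
      convert h0 using 1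
      exact prod_congr rfl fun v hv => by simp [hv]
    have h7 := (h5'.mul h5').mul h6
    show HasProd _ (Lf s * Lf s * ∏ v ∈ T, Pv v s ^ 2)
    convert h7 using 1
    funext v
    have hne := Pv_ne hH v s (by linarith)
    by_cases hv : (30 : 𝓞 k) ∈ v.asIdeal
    · rw [if_pos hv, if_pos ((hT v).2 hv)]
      field_simp
    · rw [if_neg hv, if_neg (fun h => hv ((hT v).1 h)), mul_one, ← mul_inv]
      congr 1
      have h8 : Pv v s = (1 - α v * (nm v : ℂ) ^ (-s)) * (1 - β v * (nm v : ℂ) ^ (-s)) := by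
        unfold Pv
        rw [← hαβ v, ← hαβ' v]
        ring
      rw [h8, hnm]
      simp only [Fin.prod_univ_four, Matrix.cons_val_zero, Matrix.cons_val_one, Matrix.cons_val]
      ring
  · have ha1 := ha 1 h1U
    have hg1 : AnalyticAt ℂ (fun s => ∏ v ∈ T, Pv v s ^ 2) 1 := hGd.analyticAt 1
    rw [analyticOrderAt_mul (ha1.mul ha1) hg1, analyticOrderAt_mul ha1 ha1, h1,
      hg1.analyticOrderAt_eq_zero.2 hG1]
    push_cast
    ring

end main

end Pool.Agent.H81.G5
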